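import Pool.Agent.Helper20.KP.StHB

/-!
# Project KP, chapter H, module HB7 (identity principle, homogeneity)
-/

set_option autoImplicit false

namespace Pool.Agent.Helper72.KP

open Pool.Agent.Helper67.NO MeasureTheory Filter Pool.Agent.Helper52.KP Pool.Agent.Helper20.KP
open scoped Topology

universe u

section aux

variable {g : Type u} [LieRing g] [LieAlgebra ℂ g] [FiniteDimensional ℂ g]

private lemma co_eq (x : g) : co x = (Module.finBasis ℂ g).equivFun x := by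
  funext i
  rw [Module.Basis.equivFun_apply]
  rfl

private lemma idp [LieAlgebra.IsSemisimple ℂ g] (hCNX : StCNX.{u}) (hORB : StORB.{u})
    (hHB2 : StHB2.{u}) (hHB5 : StHB5.{u}) (x₀ : g) (hx₀ : x₀ ≠ 0)
    (hnil : IsNilpotent (LieAlgebra.ad ℂ g x₀)) (C : Ch x₀)
    (F : (Fin (Module.finrank ℂ g) → ℂ) → ℂ)
    (hF1 : HolO (mkOD C).O F) (hF2 : HomO (mkOD C).O 0 F) (c : ℂ)
    (V : Set (Fin (Module.finrank ℂ g) → ℂ)) (hV : IsOpen V) (x : g) (hx : Orb x₀ x)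
    (hxV : co x ∈ V) (hc : ∀ y : g, Orb x₀ y → co y ∈ V → F (co y) = c) (y : g)
    (hy : Orb x₀ y) : F (co y) = c := by
  obtain ⟨-, -, -, ho4, -⟩ := hORB g
  have h1 := (hHB5 g x₀ hx₀ hnil C 0).2 F hF1 hF2
  have h2 : (fun _ : OO x₀ => c) ∈ Hol x₀ 0 :=
    ⟨fun x k X => differentiable_const c, fun x y a _ _ => by simp⟩
  have h3 := sub_mem h1 h2
  by_contra hne
  have h4 : ((fun x : OO x₀ => F (co x.1)) - fun _ : OO x₀ => c) ≠ 0 := by
    intro h
    have h5 : F (co y) - c = 0 := congrFun h ⟨y, hy⟩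
    exact hne (sub_eq_zero.1 h5)
  obtain ⟨X, hX⟩ := (hHB2 g x₀ hx₀ hnil C).1 x hx
  have hcont : Continuous (fun w => co (chart x X w)) := by
    have h6 := (ho4 C.m x X).1
    unfold HolMap at h6
    exact (differentiableOn_univ.1 h6).continuous
  obtain ⟨w, hw1, hw2⟩ := hCNX g x₀ hx₀ hnil 0 _ h3 h4 ⟨x, hx⟩ C.m X hX
    {w | co (chart x X w) ∈ V} (hV.preimage hcont) ⟨0, by
      change co (chart x X 0) ∈ V
      rw [(ho4 C.m x X).2.1]
      exact hxV⟩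
  apply hw2
  have h7 : Orb x₀ (chart x X w) := Orb.step _ _ hx
  unfold ext
  rw [dif_pos h7]
  simp only [Pi.sub_apply, sub_eq_zero]
  exact hc _ h7 hw1

private lemma tr [LieAlgebra.IsSemisimple ℂ g] (hORB : StORB.{u}) (x₀ x y : g) (h : Orb x y) :
    ∃ A : g ≃ₗ[ℂ] g, A x = y ∧ ∀ z, Orb x₀ (A z) ↔ Orb x₀ z := by
  obtain ⟨ho1, -⟩ := hORB g
  induction h with
  | base => exact ⟨LinearEquiv.refl ℂ g, rfl, fun z => Iff.rfl⟩
  | step y z _ ih =>
    obtain ⟨A, hA1, hA2⟩ := ih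
    have e1 : ∀ w, expAd (-z) (expAd z w) = w := fun w => (ho1 z w w).2.1
    have e2 : ∀ w, expAd z (expAd (-z) w) = w := by
      intro w
      have := (ho1 (-z) w w).2.1
      rwa [neg_neg] at this
    obtain ⟨E, hE⟩ : ∃ E : g ≃ₗ[ℂ] g, ∀ w, E w = expAd z w :=
      ⟨LinearEquiv.ofLinearMap (expAd z) (expAd (-z)) (LinearMap.ext e2) (LinearMap.ext e1),
        fun w => rfl⟩
    refine ⟨A.trans E, ?_, fun w => ?_⟩
    · rw [LinearEquiv.trans_apply, hA1, hE]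
    · rw [LinearEquiv.trans_apply, hE, ← hA2 w]
      constructor
      · intro h
        have h2 := Orb.step _ (-z) h
        rwa [e1] at h2
      · intro h
        exact Orb.step _ _ h

private lemma tr2 [LieAlgebra.IsSemisimple ℂ g] (hORB : StORB.{u}) (x₀ x y : g)
    (hx : Orb x₀ x) (hy : Orb x₀ y) :
    ∃ A : (Fin (Module.finrank ℂ g) → ℂ) ≃ₗ[ℂ] (Fin (Module.finrank ℂ g) → ℂ),
      A (co x) = co y ∧ ∀ z, A z ∈ co '' {y | Orb x₀ y} ↔ z ∈ co '' {y | Orb x₀ y} := by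
  obtain ⟨-, ho2, ho3, -⟩ := hORB g
  obtain ⟨A, hA1, hA2⟩ := tr hORB x₀ x y (ho2 _ _ _ (ho3 _ _ hx).1 hy)
  have hB : ∀ z : g, (((Module.finBasis ℂ g).equivFun.symm.trans A).trans
      (Module.finBasis ℂ g).equivFun) (co z) = co (A z) := by
    intro z
    rw [LinearEquiv.trans_apply, LinearEquiv.trans_apply, co_eq, co_eq,
      LinearEquiv.symm_apply_apply]
  have hinj : Function.Injective (co : g → _) := by
    intro a b hab
    rw [co_eq, co_eq] at hab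
    exact (Module.finBasis ℂ g).equivFun.injective hab
  have hsur : ∀ v : Fin (Module.finrank ℂ g) → ℂ, ∃ z : g, co z = v := by
    intro v
    refine ⟨(Module.finBasis ℂ g).equivFun.symm v, ?_⟩
    rw [co_eq, LinearEquiv.apply_symm_apply]
  have hm : ∀ z : g, co z ∈ co '' {y | Orb x₀ y} ↔ Orb x₀ z := by
    intro z
    rw [hinj.mem_set_image]
    rfl
  refine ⟨((Module.finBasis ℂ g).equivFun.symm.trans A).trans (Module.finBasis ℂ g).equivFun,
    ?_, fun v => ?_⟩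
  · rw [hB, hA1]
  · obtain ⟨z, rfl⟩ := hsur v
    rw [hB, hm, hm, hA2]

end aux

theorem hHB7 (hCNX : StCNX.{u}) (hORB : StORB.{u}) (hHB2 : StHB2.{u}) (hHB5 : StHB5.{u}) :
    StHB7.{u} := by
  intro g _ _ _ _ x₀ hx₀ hnil C D hD
  subst hD
  refine ⟨?_, ?_⟩
  · rintro F hF1 hF2 c V hV ⟨_, hxV, ⟨x, hx, rfl⟩⟩ hc _ ⟨y, hy, rfl⟩
    exact idp hCNX hORB hHB2 hHB5 x₀ hx₀ hnil C F hF1 hF2 c V hV x hx hxV
      (fun y hy hyV => hc _ ⟨hyV, ⟨y, hy, rfl⟩⟩) y hy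
  · rintro _ ⟨x, hx, rfl⟩ _ ⟨y, hy, rfl⟩
    exact tr2 hORB x₀ x y hx hy

end Pool.Agent.Helper72.KP
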