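import Pool.Agent.Helper52.KP.StG
import Pool.Agent.Helper31.KP.Hol

/-!
# Project KP, module JCO (Jacobians of functions on the orbit)
-/

set_option autoImplicit false

namespace Pool.Agent.Helper72.KP

open Pool.Agent.Helper67.NO MeasureTheory Filter Pool.Agent.Helper52.KP
open scoped ContDiff ComplexOrder Topology

universe u

section aux

variable {m : ℕ}

private lemma dz_eq {F : (Fin m → ℂ) → ℂ} {z : Fin m → ℂ} (h : DifferentiableAt ℂ F z)
    (j : Fin m) : dz j F z = fderiv ℂ F z (Pi.single j 1) := by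
  have h1 : fderiv ℝ F z = (fderiv ℂ F z).restrictScalars ℝ := h.fderiv_restrictScalars ℝ
  have h2 : (Pi.single j Complex.I : Fin m → ℂ) = Complex.I • Pi.single j 1 := by
    rw [← Pi.single_smul]
    simp
  unfold dz
  rw [h1]
  simp only [ContinuousLinearMap.coe_restrictScalars']
  rw [h2, map_smul, smul_eq_mul, ← mul_assoc, Complex.I_mul_I]
  ring

private lemma abs_det_real (L : (Fin m → ℂ) →L[ℂ] (Fin m → ℂ)) :
    |(L.restrictScalars ℝ).det| = ‖L.det‖ ^ 2 := by
  have : (L.restrictScalars ℝ).det = Complex.normSq L.det := by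
    rw [← Algebra.norm_complex_apply]
    exact LinearMap.det_restrictScalars
  rw [this, Complex.normSq_eq_norm_sq, abs_of_nonneg (by positivity)]

/-- the Jacobian matrix -/
private noncomputable def JM (F : Fin m → (Fin m → ℂ) → ℂ) (z : Fin m → ℂ) :
    Matrix (Fin m) (Fin m) ℂ := Matrix.of fun i j => dz j (F i) z

private lemma sum_single (v : Fin m → ℂ) : v = ∑ l, v l • (Pi.single l (1 : ℂ) : Fin m → ℂ) := by
  funext i
  simp [Finset.sum_apply, Pi.single_apply]

private lemma JM_comp (F H : Fin m → (Fin m → ℂ) → ℂ) (τ : (Fin m → ℂ) → (Fin m → ℂ))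
    (w : Fin m → ℂ) (hF : ∀ i, DifferentiableAt ℂ (F i) (τ w)) (hτ : DifferentiableAt ℂ τ w)
    (he : ∀ i, H i =ᶠ[𝓝 w] fun w => F i (τ w)) :
    (JM H w).det = (JM F (τ w)).det * (fderiv ℂ τ w).det := by
  have h0 : (fderiv ℂ τ w).det =
      (LinearMap.toMatrix' (fderiv ℂ τ w : (Fin m → ℂ) →ₗ[ℂ] (Fin m → ℂ))).det := by
    rw [LinearMap.det_toMatrix']
  rw [h0, ← Matrix.det_mul]
  congr 1
  ext i j
  have h1 : DifferentiableAt ℂ (fun w => F i (τ w)) w := (hF i).comp w hτ
  have h2 : DifferentiableAt ℂ (H i) w := h1.congr_of_eventuallyEq (he i)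
  simp only [JM, Matrix.of_apply, Matrix.mul_apply, LinearMap.toMatrix'_apply]
  rw [dz_eq h2, (he i).fderiv_eq]
  have h3 : fderiv ℂ (fun w => F i (τ w)) w = (fderiv ℂ (F i) (τ w)).comp (fderiv ℂ τ w) :=
    fderiv_comp w (hF i) hτ
  rw [h3, ContinuousLinearMap.comp_apply]
  conv_lhs => rw [sum_single (fderiv ℂ τ w (Pi.single j 1)), map_sum]
  refine Finset.sum_congr rfl fun l _ => ?_
  rw [map_smul, smul_eq_mul, dz_eq (hF i), mul_comm]
  rfl

private lemma prod_diff {ι : Type*} (s : Finset ι) {U : Set (Fin m → ℂ)}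
    {a : ι → (Fin m → ℂ) → ℂ} (h : ∀ i, DifferentiableOn ℂ (a i) U) :
    DifferentiableOn ℂ (fun z => ∏ i ∈ s, a i z) U := by
  classical
  induction s using Finset.induction_on with
  | empty => simp
  | insert i s hi ih =>
    simp only [Finset.prod_insert hi]
    exact (h i).mul ih

private lemma det_diff {U : Set (Fin m → ℂ)} {a : (Fin m → ℂ) → Fin m → Fin m → ℂ}
    (h : ∀ i j, DifferentiableOn ℂ (fun z => a z i j) U) :
    DifferentiableOn ℂ (fun z => (Matrix.of fun i j => a z i j).det) U := by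
  simp only [Matrix.det_apply, Matrix.of_apply]
  refine DifferentiableOn.fun_sum fun σ _ => ?_
  refine DifferentiableOn.const_smul ?_ _
  exact prod_diff _ fun i => h _ _

private lemma JM_diff {U : Set (Fin m → ℂ)} (hU : IsOpen U) {F : Fin m → (Fin m → ℂ) → ℂ}
    (h : ∀ i, DifferentiableOn ℂ (F i) U) : DifferentiableOn ℂ (fun z => (JM F z).det) U := by
  have h1 : DifferentiableOn ℂ
      (fun z => (Matrix.of fun i j => fderiv ℂ (F i) z (Pi.single j 1)).det) U :=
    det_diff fun i j => Pool.Agent.Helper31.KP.Hol.differentiableOn_fderiv_apply hU (h i) _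
  refine h1.congr fun z hz => ?_
  unfold JM
  congr 1
  ext i j
  exact dz_eq ((h i).differentiableAt (hU.mem_nhds hz)) j

private lemma int_image (τ : (Fin m → ℂ) → (Fin m → ℂ)) {A : Set (Fin m → ℂ)} (hA : IsOpen A)
    (hτ : DifferentiableOn ℂ τ A) (hinj : Set.InjOn τ A) (h G : (Fin m → ℂ) → ℂ)
    (hG : IntegrableOn (fun w => ‖G w‖ ^ 2) A)
    (he : ∀ w ∈ A, G w = h (τ w) * (fderiv ℂ τ w).det) :
    IntegrableOn (fun z => ‖h z‖ ^ 2) (τ '' A) := by
  have hd : ∀ w ∈ A, HasFDerivWithinAt τ ((fderiv ℂ τ w).restrictScalars ℝ) A w := fun w hw =>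
    ((hτ.differentiableAt (hA.mem_nhds hw)).hasFDerivAt.restrictScalars ℝ).hasFDerivWithinAt
  rw [integrableOn_image_iff_integrableOn_abs_det_fderiv_smul volume hA.measurableSet hd hinj]
  refine hG.congr_fun (fun w hw => ?_) hA.measurableSet
  simp only
  rw [abs_det_real, he w hw, norm_mul, mul_pow, smul_eq_mul, mul_comm]

end aux

section aux2

variable {g : Type u} [LieRing g] [LieAlgebra ℂ g] [FiniteDimensional ℂ g]

private lemma co_symm (v : Fin (Module.finrank ℂ g) → ℂ) :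
    co ((Module.finBasis ℂ g).equivFun.symm v) = v := by
  have h := (Module.finBasis ℂ g).equivFun.apply_symm_apply v
  funext i
  have h2 := congrFun h i
  rw [Module.Basis.equivFun_apply] at h2
  exact h2

private lemma symm_co (x : g) : (Module.finBasis ℂ g).equivFun.symm (co x) = x := by
  have h : co x = (Module.finBasis ℂ g).equivFun x := by
    funext i
    rw [Module.Basis.equivFun_apply]
    rfl
  rw [h]
  exact (Module.finBasis ℂ g).equivFun.symm_apply_apply x

private lemma co_sub (x y : g) : co (x - y) = co x - co y := by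
  funext i
  simp [co]

private lemma mns_cont (m : ℕ) :
    Continuous (fun v : Fin (Module.finrank ℂ g) → ℂ =>
      mns m ((Module.finBasis ℂ g).equivFun.symm v)) := by
  unfold mns
  refine continuous_finsetSum _ fun a _ => continuous_finsetSum _ fun b _ => ?_
  refine continuous_norm.comp ?_
  unfold mnr
  refine Continuous.matrix_det ?_
  refine continuous_matrix fun i j => ?_
  have h : Continuous ((LinearMap.proj (R := ℂ) (φ := fun _ => ℂ) (b j) ∘ₗ
      LinearMap.proj (R := ℂ) (φ := fun _ => Fin (Module.finrank ℂ g) → ℂ) (a i) ∘ₗ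
      (LinearMap.toMatrix (Module.finBasis ℂ g) (Module.finBasis ℂ g)).toLinearMap ∘ₗ
      (LieAlgebra.ad ℂ g : g →ₗ[ℂ] Module.End ℂ g) ∘ₗ
      (Module.finBasis ℂ g).equivFun.symm.toLinearMap :
        (Fin (Module.finrank ℂ g) → ℂ) →ₗ[ℂ] ℂ)) :=
    LinearMap.continuous_of_finiteDimensional _
  exact h

private lemma size_eq (x : g) : size x = ∑ i, ‖co x i‖ := rfl

private lemma ext_pos {x₀ : g} (f : OO x₀ → ℂ) {x : g} (h : Orb x₀ x) :
    ext f x = f ⟨x, h⟩ := by
  unfold ext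
  rw [dif_pos h]

/-- the points of the orbit with bounds form a compact set -/
private lemma cpt [LieAlgebra.IsSemisimple ℂ g] (hCLO : StCLO.{u}) (x₀ : g) (hx₀ : x₀ ≠ 0)
    (hnil : IsNilpotent (LieAlgebra.ad ℂ g x₀)) (r δ : ℝ) (hδ : 0 < δ) :
    IsCompact {v : Fin (Module.finrank ℂ g) → ℂ | ∃ y : g, Orb x₀ y ∧ size y ≤ r ∧
      δ ≤ mns (rk x₀) y ∧ co y = v} := by
  apply IsSeqCompact.isCompact
  intro v hv
  choose y hy using hv
  have hb : ∀ i, v i ∈ Metric.closedBall (0 : Fin (Module.finrank ℂ g) → ℂ) (max r 0) := by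
    intro i
    rw [mem_closedBall_zero_iff, pi_norm_le_iff_of_nonneg (le_max_right _ _)]
    intro j
    have h1 := (hy i).2.1
    rw [size_eq, (hy i).2.2.2] at h1
    have h2 : ‖v i j‖ ≤ ∑ l, ‖v i l‖ :=
      Finset.single_le_sum (f := fun l => ‖v i l‖) (fun l _ => norm_nonneg _)
        (Finset.mem_univ j)
    exact (h2.trans h1).trans (le_max_left _ _)
  obtain ⟨v₀, -, φ, hφ, hv⟩ := (isCompact_closedBall (0 : Fin (Module.finrank ℂ g) → ℂ)
    (max r 0)).tendsto_subseq hb
  obtain ⟨x, hx⟩ : ∃ x : g, x = (Module.finBasis ℂ g).equivFun.symm v₀ := ⟨_, rfl⟩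
  have hcx : co x = v₀ := by rw [hx]; exact co_symm v₀
  have hyx : Tendsto (fun i => co (y (φ i))) atTop (𝓝 (co x)) := by
    rw [hcx]
    have : (fun i => co (y (φ i))) = v ∘ φ := by
      funext i
      exact (hy (φ i)).2.2.2
    rw [this]
    exact hv
  have hmn : Tendsto (fun i => mns (rk x₀) (y (φ i))) atTop (𝓝 (mns (rk x₀) x)) := by
    have h1 := ((mns_cont (g := g) (rk x₀)).tendsto (co x)).comp hyx
    simp only [Function.comp_def, symm_co] at h1
    exact h1
  have hmx : δ ≤ mns (rk x₀) x := ge_of_tendsto' hmn fun i => (hy (φ i)).2.2.1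
  have hsx : size x ≤ r := by
    have h1 : Tendsto (fun i => size (y (φ i))) atTop (𝓝 (size x)) := by
      simp only [size_eq]
      refine tendsto_finsetSum _ fun j _ => ?_
      exact ((tendsto_pi_nhds.1 hyx) j).norm
    exact le_of_tendsto' h1 fun i => (hy (φ i)).2.1
  obtain ⟨hxo, -⟩ := (hCLO g x₀ hx₀ hnil).2 x (fun i => y (φ i)) (fun i => (hy (φ i)).1)
    (lt_of_lt_of_le hδ hmx) hyx
  exact ⟨v₀, ⟨x, hxo, hsx, hmx, hcx⟩, φ, hφ, hv⟩

end aux2

theorem hJCO (hEXL : StEXL.{u}) (hTRN : StTRN.{u}) (hCLO : StCLO.{u}) (hHLC : StHLC.{u})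
    (hORB : StORB.{u}) : StJCO.{u} := by
  intro g _ _ _ _ x₀ hx₀ hnil C k f hf hk
  obtain ⟨-, -, ho3, ho4, -, ho6, ho7⟩ := hORB g
  have hUo : IsOpen {z : Fin C.m → ℂ | MvPolynomial.eval z C.Δ ≠ 0} :=
    isOpen_ne_fun (MvPolynomial.continuous_eval C.Δ) continuous_const
  have hΦ : HolMap Set.univ C.Φ := by
    unfold HolMap
    rw [differentiableOn_pi]
    intro i
    obtain ⟨P, hP⟩ := C.poly i
    have h1 : DifferentiableOn ℂ (fun z : Fin C.m → ℂ => MvPolynomial.eval z P) Set.univ := by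
      simp only [MvPolynomial.eval_eq']
      refine DifferentiableOn.fun_sum fun d _ => ?_
      refine DifferentiableOn.const_mul ?_ _
      exact prod_diff _ fun i => ((differentiable_apply i).pow _).differentiableOn
    exact h1.congr fun z _ => hP z
  have horb : ∀ z : Fin C.m → ℂ, MvPolynomial.eval z C.Δ ≠ 0 → Orb x₀ (C.Φ z) :=
    fun z hz => C.orb z hz
  obtain ⟨F, hFdef⟩ : ∃ F : Fin C.m → (Fin C.m → ℂ) → ℂ, F = fun i z => ext (f i) (C.Φ z) :=
    ⟨_, rfl⟩
  have hF : ∀ i, DifferentiableOn ℂ (F i) {z | MvPolynomial.eval z C.Δ ≠ 0} := by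
    intro i
    rw [hFdef]
    exact hHLC g x₀ hx₀ hnil C.m _ hUo C.Φ (hΦ.mono (Set.subset_univ _)) horb (k i) (f i) (hf i)
  have hkn : ∑ i, k i - hdim x₀ + C.jd + ∑ j, C.w j = ∑ i, k i := by
    have := C.deg
    omega
  -- homogeneity
  have hhom : ∀ (c : ℂ), ‖c‖ = 1 → ∀ z, MvPolynomial.eval z C.Δ ≠ 0 →
      (JM F (scl C.w c z)).det = c ^ (∑ i, k i - hdim x₀ + C.jd) * (JM F z).det := by
    intro c hc z hz
    have hc0 : c ≠ 0 := by
      rintro rfl
      simp at hc
    have hsm : ∀ z, MvPolynomial.eval z C.Δ ≠ 0 → MvPolynomial.eval (scl C.w c z) C.Δ ≠ 0 := by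
      intro z hz
      exact C.sclU c z hc0 hz
    obtain ⟨D, hD⟩ : ∃ D : (Fin C.m → ℂ) →ₗ[ℂ] (Fin C.m → ℂ),
        D = Matrix.toLin' (Matrix.diagonal fun j => c ^ C.w j) := ⟨_, rfl⟩
    have hDs : ∀ z, D z = scl C.w c z := by
      intro z
      rw [hD, Matrix.toLin'_apply]
      funext j
      simp [Matrix.mulVec_diagonal, scl]
    have hDf : HasFDerivAt (scl C.w c) (LinearMap.toContinuousLinearMap D) z := by
      have h1 : scl C.w c = fun z => LinearMap.toContinuousLinearMap D z := by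
        funext z
        exact (hDs z).symm
      rw [h1]
      exact (LinearMap.toContinuousLinearMap D).hasFDerivAt
    have hdet : (fderiv ℂ (scl C.w c) z).det = c ^ (∑ j, C.w j) := by
      rw [hDf.fderiv]
      have h1 : (LinearMap.toContinuousLinearMap D).det = LinearMap.det D := rfl
      rw [h1, hD, LinearMap.det_toLin', Matrix.det_diagonal, Finset.prod_pow_eq_pow_sum]
    have hev : ∀ i, (fun z => c ^ k i * F i z) =ᶠ[𝓝 z] fun z => F i (scl C.w c z) := by
      intro i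
      filter_upwards [hUo.mem_nhds hz] with y hy
      rw [hFdef]
      simp only
      rw [C.hom]
      have hy1 := horb y hy
      have hy2 : Orb x₀ (c • C.Φ y) := (ho7 x₀ (C.Φ y) hx₀ hnil hy1).2 c hc0
      rw [ext_pos _ hy1, ext_pos _ hy2]
      exact ((hf i).2 ⟨C.Φ y, hy1⟩ ⟨c • C.Φ y, hy2⟩ c hc0 rfl).symm
    have h1 := JM_comp F (fun i z => c ^ k i * F i z) (scl C.w c) z
      (fun i => (hF i).differentiableAt (hUo.mem_nhds (hsm z hz))) hDf.differentiableAt hev
    have h2 : (JM (fun i z => c ^ k i * F i z) z).det = c ^ (∑ i, k i) * (JM F z).det := by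
      have h3 : JM (fun i z => c ^ k i * F i z) z =
          Matrix.of fun i j => (c ^ k i) * JM F z i j := by
        ext i j
        simp only [JM, Matrix.of_apply]
        have h4 : DifferentiableAt ℂ (F i) z := (hF i).differentiableAt (hUo.mem_nhds hz)
        rw [dz_eq (h4.const_mul _), dz_eq h4, fderiv_const_mul h4]
        rfl
      rw [h3, Matrix.det_mul_column, Finset.prod_pow_eq_pow_sum]
    rw [h2, hdet] at h1
    have h5 : c ^ (∑ j, C.w j) ≠ 0 := pow_ne_zero _ hc0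
    have h6 : c ^ (∑ i, k i) = c ^ (∑ i, k i - hdim x₀ + C.jd) * c ^ (∑ j, C.w j) := by
      rw [← pow_add, hkn]
    rw [h6] at h1
    refine mul_right_cancel₀ h5 ?_
    rw [← h1]
    ring
  -- local integrability
  have hloc : ∀ x : g, Orb x₀ x → ∃ δ : ℝ, 0 < δ ∧ IntegrableOn (fun z => ‖(JM F z).det‖ ^ 2)
      {z | MvPolynomial.eval z C.Δ ≠ 0 ∧ size (C.Φ z - x) < δ} := by
    intro x hx
    have hrk : C.m = rk x := by
      rw [C.hrk]
      exact ((ho3 x₀ x hx).2.1).symm
    obtain ⟨X, hX⟩ : ∃ X : Fin C.m → g, Frm x X := by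
      rw [hrk]
      exact ho6 x
    obtain ⟨ε, δ, a, b, τ, hε, hδ, -, hinj, hτd, hτ, -, hsur⟩ :=
      hTRN g x₀ hx₀ hnil C ⟨x, hx⟩ X hX
    simp only at hinj hτd hτ hsur
    refine ⟨δ, hδ, ?_⟩
    have hfd : ∀ (k : ℕ), ∀ f ∈ Hol x₀ k, Differentiable ℂ (fun w => ext f (chart x X w)) := by
      intro k f hf
      have h1 := hf.1 ⟨x, hx⟩ C.m X
      have h2 : (fun w => ext f (chart x X w)) =
          fun w => f ⟨chart x X w, Orb.step _ _ hx⟩ := by
        funext w
        exact ext_pos f (Orb.step _ _ hx)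
      rw [h2]
      exact h1
    obtain ⟨A, hAdef⟩ : ∃ A : Set (Fin C.m → ℂ),
        A = {w | ‖w‖ < ε ∧ ext C.p₁ (chart x X w) ≠ 0} := ⟨_, rfl⟩
    rw [← hAdef] at hτd
    have hAo : IsOpen A := by
      rw [hAdef]
      exact (isOpen_lt continuous_norm continuous_const).inter
        (isOpen_ne_fun (hfd _ _ C.p1mem).continuous continuous_const)
    have hAm : ∀ w, w ∈ A ↔ ‖w‖ < ε ∧ ext C.p₁ (chart x X w) ≠ 0 := by
      intro w
      rw [hAdef]
      rfl
    have hG : Differentiable ℂ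
        (fun w => (JM (fun i w => ext (f i) (chart x X w)) w).det) := by
      rw [← differentiableOn_univ]
      exact JM_diff isOpen_univ fun i => (hfd _ _ (hf i)).differentiableOn
    have hGi : IntegrableOn (fun w => ‖(JM (fun i w => ext (f i) (chart x X w)) w).det‖ ^ 2) A := by
      have h1 : IntegrableOn (fun w => ‖(JM (fun i w => ext (f i) (chart x X w)) w).det‖ ^ 2)
          (Metric.closedBall 0 ε) :=
        (hG.continuous.norm.pow 2).continuousOn.integrableOn_compact (isCompact_closedBall _ _)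
      refine h1.mono_set fun w hw => ?_
      rw [mem_closedBall_zero_iff]
      exact ((hAm w).1 hw).1.le
    have h2 := int_image τ hAo hτd ?_ (fun z => (JM F z).det) _ hGi ?_
    · refine h2.mono_set ?_
      rintro z ⟨hz, hz2⟩
      obtain ⟨w, hw1, hw2, hw3⟩ := hsur z hz hz2
      refine ⟨w, ?_, hw3⟩
      rw [hAm]
      refine ⟨hw1, ?_⟩
      rw [hw2, ext_pos _ (horb z hz)]
      exact (C.p1 ⟨C.Φ z, horb z hz⟩).2 ⟨z, hz, rfl⟩
    · intro w hw w' hw' he
      rw [hAm] at hw hw'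
      refine hinj w w' hw.1 hw'.1 ?_
      rw [← (hτ w hw.1 hw.2).2.1, he, (hτ w' hw'.1 hw'.2).2.1]
    · intro w hw
      refine JM_comp F _ τ w (fun i => ?_) (hτd.differentiableAt (hAo.mem_nhds hw)) fun i => ?_
      · have h3 := (hAm w).1 hw
        exact (hF i).differentiableAt (hUo.mem_nhds (hτ w h3.1 h3.2).1)
      · filter_upwards [hAo.mem_nhds hw] with y hy
        have h3 := (hAm y).1 hy
        rw [hFdef]
        simp only
        rw [(hτ y h3.1 h3.2).2.1]
  -- integrability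
  have hint : ∀ r δ : ℝ, 0 < δ → IntegrableOn (fun z => ‖(JM F z).det‖ ^ 2)
      {z | MvPolynomial.eval z C.Δ ≠ 0 ∧ size (C.Φ z) ≤ r ∧ δ ≤ mns C.m (C.Φ z)} := by
    intro r δ hδ
    have h1 := (cpt hCLO x₀ hx₀ hnil r δ hδ).induction_on
      (p := fun T => IntegrableOn (fun z => ‖(JM F z).det‖ ^ 2)
        {z | MvPolynomial.eval z C.Δ ≠ 0 ∧ co (C.Φ z) ∈ T}) ?_ ?_ ?_ ?_
    · refine h1.mono_set ?_
      rintro z ⟨hz1, hz2, hz3⟩
      refine ⟨hz1, C.Φ z, horb z hz1, hz2, ?_, rfl⟩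
      rw [← C.hrk]
      exact hz3
    · simp
    · intro S T hST hT
      exact hT.mono_set fun z hz => ⟨hz.1, hST hz.2⟩
    · intro S T hS hT
      refine (hS.union hT).mono_set ?_
      rintro z ⟨hz1, hz2 | hz2⟩
      · exact Or.inl ⟨hz1, hz2⟩
      · exact Or.inr ⟨hz1, hz2⟩
    · rintro v ⟨x, hx, -, -, rfl⟩
      obtain ⟨δ', hδ', hi⟩ := hloc x hx
      refine ⟨{v | ∑ i, ‖v i - co x i‖ < δ'}, ?_, ?_⟩
      · refine mem_nhdsWithin_of_mem_nhds (IsOpen.mem_nhds ?_ ?_)
        · refine isOpen_lt ?_ continuous_const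
          fun_prop
        · simpa using hδ'
      · refine hi.mono_set ?_
        rintro z ⟨hz1, hz2⟩
        refine ⟨hz1, ?_⟩
        rw [size_eq, co_sub]
        exact hz2
  obtain ⟨s, hs, hse⟩ := hEXL g x₀ hx₀ hnil C (∑ i, k i - hdim x₀) (fun z => (JM F z).det)
    (JM_diff hUo hF) hhom hint
  refine ⟨s, hs, fun z hz => ?_⟩
  have h := hse z hz
  rw [hFdef] at h
  exact h

end Pool.Agent.Helper72.KP
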