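import Pool.Agent.Helper52.KP.StL

/-!
# Module MO2 of project KP (MP_26be5b_ag): mollifications converge in `L²`
-/

set_option autoImplicit false

namespace Pool.Agent.Helper72.KP

open MeasureTheory Filter Pool.Agent.Helper52.KP
open scoped ContDiff ComplexOrder Topology Convolution

variable {m : ℕ}

/-- A mollifier. -/
private structure Mo (w : (Fin m → ℂ) → ℝ) (r : ℝ) : Prop where
  ct : Continuous w
  nn : ∀ z, 0 ≤ w z
  sp : ∀ z : Fin m → ℂ, r < ‖z‖ → w z = 0
  on : ∫ z, w z = 1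

private theorem Mo.cs {w : (Fin m → ℂ) → ℝ} {r : ℝ} (h : Mo w r) : HasCompactSupport w :=
  HasCompactSupport.intro (isCompact_closedBall 0 r) fun z hz => h.sp z (by
    simpa [Metric.mem_closedBall, dist_zero_right] using hz)

private theorem Mo.int {w : (Fin m → ℂ) → ℝ} {r : ℝ} (h : Mo w r) : Integrable w volume :=
  h.ct.integrable_of_hasCompactSupport h.cs

private theorem Mo.ctz {w : (Fin m → ℂ) → ℝ} {r : ℝ} (h : Mo w r) (z : Fin m → ℂ) :
    Continuous fun x => w (z - x) := h.ct.comp (continuous_const.sub continuous_id)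

private theorem Mo.csz {w : (Fin m → ℂ) → ℝ} {r : ℝ} (h : Mo w r) (z : Fin m → ℂ) :
    HasCompactSupport fun x => w (z - x) :=
  HasCompactSupport.intro (isCompact_closedBall z r) fun x hx => h.sp (z - x) (by
    rw [Metric.mem_closedBall, not_le, dist_comm, dist_eq_norm] at hx
    exact hx)

private theorem Mo.onz {w : (Fin m → ℂ) → ℝ} {r : ℝ} (h : Mo w r) (z : Fin m → ℂ) :
    ∫ x, w (z - x) = 1 := by
  rw [integral_sub_left_eq_self w volume z]
  exact h.on

private theorem Mo.i0 {w : (Fin m → ℂ) → ℝ} {r : ℝ} (h : Mo w r) (z : Fin m → ℂ) :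
    Integrable (fun x => w (z - x)) volume :=
  (h.ctz z).integrable_of_hasCompactSupport (h.csz z)

private theorem Mo.i1 {w : (Fin m → ℂ) → ℝ} {r : ℝ} (h : Mo w r) {f : (Fin m → ℂ) → ℂ}
    (hf : MemLp f 2 volume) (z : Fin m → ℂ) :
    Integrable (fun x => w (z - x) * ‖f x‖) volume := by
  have h1 : MemLp (fun x => w (z - x)) 2 volume :=
    (h.ctz z).memLp_of_hasCompactSupport (h.csz z)
  exact h1.integrable_mul hf.norm

private theorem Mo.i2 {w : (Fin m → ℂ) → ℝ} {r : ℝ} (h : Mo w r) {f : (Fin m → ℂ) → ℂ}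
    (hf : MemLp f 2 volume) (z : Fin m → ℂ) :
    Integrable (fun x => w (z - x) * ‖f x‖ ^ 2) volume := by
  obtain ⟨B, hB⟩ := (h.ctz z).bounded_above_of_compact_support (h.csz z)
  exact ((memLp_two_iff_integrable_sq_norm hf.1).1 hf).bdd_mul
    (h.ctz z).aestronglyMeasurable (Filter.Eventually.of_forall hB)

private theorem Mo.ic {w : (Fin m → ℂ) → ℝ} {r : ℝ} (h : Mo w r) {f : (Fin m → ℂ) → ℂ}
    (hf : MemLp f 2 volume) (z : Fin m → ℂ) :
    Integrable (fun x => (w (z - x) : ℂ) * f x) volume := by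
  have h1 : MemLp (fun x => (w (z - x) : ℂ)) 2 volume :=
    (Complex.continuous_ofReal.comp (h.ctz z)).memLp_of_hasCompactSupport
      ((h.csz z).comp_left (g := fun t : ℝ => (t : ℂ)) (by simp))
  exact h1.integrable_mul hf

/-- Jensen. -/
private theorem Mo.jen {w : (Fin m → ℂ) → ℝ} {r : ℝ} (h : Mo w r) {f : (Fin m → ℂ) → ℂ}
    (hf : MemLp f 2 volume) (z : Fin m → ℂ) :
    ‖cv w f z‖ ^ 2 ≤ ∫ x, w (z - x) * ‖f x‖ ^ 2 := by
  set c : ℝ := ∫ x, w (z - x) * ‖f x‖ with hc
  have hc0 : 0 ≤ c := integral_nonneg fun x => mul_nonneg (h.nn _) (norm_nonneg _)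
  have h1 : ‖cv w f z‖ ≤ c := by
    unfold cv
    refine (norm_integral_le_integral_norm _).trans (le_of_eq ?_)
    rw [hc]
    congr 1
    funext x
    rw [norm_mul, Complex.norm_real, Real.norm_eq_abs, abs_of_nonneg (h.nn _)]
  have h2 : 0 ≤ ∫ x, w (z - x) * (‖f x‖ - c) ^ 2 :=
    integral_nonneg fun x => mul_nonneg (h.nn _) (sq_nonneg _)
  have h3 : ∫ x, w (z - x) * (‖f x‖ - c) ^ 2
      = (∫ x, w (z - x) * ‖f x‖ ^ 2) - 2 * c * (∫ x, w (z - x) * ‖f x‖)
        + c ^ 2 * ∫ x, w (z - x) := by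
    have i12 := (h.i1 hf z).const_mul (2 * c)
    have i00 := (h.i0 z).const_mul (c ^ 2)
    have a1 := integral_add (f := fun x => w (z - x) * ‖f x‖ ^ 2 - 2 * c * (w (z - x) * ‖f x‖))
      (g := fun x => c ^ 2 * w (z - x)) ((h.i2 hf z).sub i12) i00
    have a2 := integral_sub (f := fun x => w (z - x) * ‖f x‖ ^ 2)
      (g := fun x => 2 * c * (w (z - x) * ‖f x‖)) (h.i2 hf z) i12
    have b1 : ∫ x, 2 * c * (w (z - x) * ‖f x‖) = 2 * c * ∫ x, w (z - x) * ‖f x‖ :=
      integral_const_mul _ _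
    have b2 : ∫ x, c ^ 2 * w (z - x) = c ^ 2 * ∫ x, w (z - x) := integral_const_mul _ _
    rw [← b1, ← b2, ← a2, ← a1]
    congr 1
    funext x
    ring
  rw [h3, h.onz z, ← hc] at h2
  have h4 : ‖cv w f z‖ ^ 2 ≤ c ^ 2 := pow_le_pow_left₀ (norm_nonneg _) h1 2
  nlinarith

private theorem Mo.meas {w : (Fin m → ℂ) → ℝ} {r : ℝ} (h : Mo w r) {f : (Fin m → ℂ) → ℂ}
    (hf : MemLp f 2 volume) : AEStronglyMeasurable (cv w f) volume := by
  have h1 : AEStronglyMeasurable (fun p : (Fin m → ℂ) × (Fin m → ℂ) =>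
      (w (p.1 - p.2) : ℂ) * f p.2) (volume.prod volume) := by
    refine AEStronglyMeasurable.mul ?_ hf.1.comp_snd
    exact (Complex.continuous_ofReal.comp (h.ct.comp
      (continuous_fst.sub continuous_snd))).aestronglyMeasurable
  exact h1.integral_prod_right'

private theorem Mo.prod {w : (Fin m → ℂ) → ℝ} {r : ℝ} (h : Mo w r) {f : (Fin m → ℂ) → ℂ}
    (hf : MemLp f 2 volume) :
    Integrable (fun z => ∫ x, w (z - x) * ‖f x‖ ^ 2) volume ∧
      ∫ z, (∫ x, w (z - x) * ‖f x‖ ^ 2) = ∫ x, ‖f x‖ ^ 2 := by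
  have hi := (memLp_two_iff_integrable_sq_norm hf.1).1 hf
  have h1 := hi.convolution_integrand (ContinuousLinearMap.mul ℝ ℝ) h.int
  have h2 : ∀ z, (∫ x, w (z - x) * ‖f x‖ ^ 2)
      = ((fun x => ‖f x‖ ^ 2) ⋆[ContinuousLinearMap.mul ℝ ℝ, volume] w) z := by
    intro z
    unfold convolution
    congr 1
    funext x
    simp [mul_comm]
  constructor
  · simp only [h2]
    exact hi.integrable_convolution (ContinuousLinearMap.mul ℝ ℝ) h.int
  · simp only [h2]
    rw [integral_convolution (ContinuousLinearMap.mul ℝ ℝ) hi h.int, h.on]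
    simp

private theorem Mo.mem {w : (Fin m → ℂ) → ℝ} {r : ℝ} (h : Mo w r) {f : (Fin m → ℂ) → ℂ}
    (hf : MemLp f 2 volume) :
    MemLp (cv w f) 2 volume ∧ ∫ z, ‖cv w f z‖ ^ 2 ≤ ∫ x, ‖f x‖ ^ 2 := by
  have h1 : Integrable (fun z => ‖cv w f z‖ ^ 2) volume := by
    refine (h.prod hf).1.mono' ((h.meas hf).norm.pow 2) (Filter.Eventually.of_forall fun z => ?_)
    rw [Real.norm_eq_abs, abs_of_nonneg (sq_nonneg _)]
    exact h.jen hf z
  refine ⟨(memLp_two_iff_integrable_sq_norm (h.meas hf)).2 h1, ?_⟩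
  rw [← (h.prod hf).2]
  exact integral_mono h1 (h.prod hf).1 fun z => h.jen hf z

/-- Comparison of the mollification with a value. -/
private theorem Mo.close {w : (Fin m → ℂ) → ℝ} {r : ℝ} (h : Mo w r) {g : (Fin m → ℂ) → ℂ}
    (hg : MemLp g 2 volume) (z : Fin m → ℂ) (c : ℂ) (ε : ℝ)
    (hε : ∀ x, ‖z - x‖ ≤ r → ‖g x - c‖ ≤ ε) : ‖cv w g z - c‖ ≤ ε := by
  have h0 : Integrable (fun x => (w (z - x) : ℂ)) volume := (h.i0 z).ofReal
  have h1 : cv w g z - c = ∫ x, (w (z - x) : ℂ) * (g x - c) := by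
    have e1 : ∫ x, (w (z - x) : ℂ) * (g x - c)
        = (∫ x, (w (z - x) : ℂ) * g x) - ∫ x, (w (z - x) : ℂ) * c := by
      rw [← integral_sub (h.ic hg z) (h0.mul_const c)]
      congr 1
      funext x
      ring
    have e2 : ∫ x, (w (z - x) : ℂ) = 1 := by
      have e3 : ∫ x, (w (z - x) : ℂ) = ((∫ x, w (z - x) : ℝ) : ℂ) :=
        integral_ofReal (𝕜 := ℂ) (f := fun x => w (z - x))
      rw [e3, h.onz z]; simp
    rw [e1, integral_mul_const, e2, one_mul]
    rfl
  rw [h1]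
  have h2 : ∀ x, ‖(w (z - x) : ℂ) * (g x - c)‖ ≤ w (z - x) * ε := by
    intro x
    rw [norm_mul, Complex.norm_real, Real.norm_eq_abs, abs_of_nonneg (h.nn _)]
    by_cases hx : ‖z - x‖ ≤ r
    · exact mul_le_mul_of_nonneg_left (hε x hx) (h.nn _)
    · rw [h.sp _ (not_le.1 hx)]
      simp
  calc ‖∫ x, (w (z - x) : ℂ) * (g x - c)‖ ≤ ∫ x, w (z - x) * ε :=
        norm_integral_le_of_norm_le ((h.i0 z).mul_const ε) (Filter.Eventually.of_forall h2)
    _ = ε := by rw [integral_mul_const, h.onz z, one_mul]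

theorem hMO2 : StMO2 := by
  intro m φ hφ f hf
  have hM : ∀ i, Mo (φ i) (1 / ((i : ℝ) + 1)) := fun i =>
    ⟨(hφ.smooth i).continuous, hφ.nonneg i, hφ.supp i, hφ.one i⟩
  have hr1 : ∀ i : ℕ, (1 : ℝ) / ((i : ℝ) + 1) ≤ 1 := fun i => by
    rw [div_le_one (by positivity)]
    linarith [(Nat.cast_nonneg i : (0 : ℝ) ≤ i)]
  refine ⟨fun i => ((hM i).mem hf).1, ?_⟩
  -- continuous functions with compact support
  have hcont : ∀ g : (Fin m → ℂ) → ℂ, Continuous g → HasCompactSupport g → MemLp g 2 volume →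
      Tendsto (fun i => ∫ z, ‖cv (φ i) g z - g z‖ ^ 2) atTop (𝓝 0) := by
    intro g hgc hgs hg2
    obtain ⟨B, hB⟩ := hgc.bounded_above_of_compact_support hgs
    have hB0 : 0 ≤ B := (norm_nonneg _).trans (hB 0)
    set K : Set (Fin m → ℂ) := Metric.cthickening 1 (tsupport g) with hK
    have hKc : IsCompact K := hgs.isCompact.cthickening
    have h0 : Tendsto (fun i => ∫ z, ‖cv (φ i) g z - g z‖ ^ 2) atTop
        (𝓝 (∫ _ : Fin m → ℂ, (0 : ℝ))) := by
      refine tendsto_integral_of_dominated_convergence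
        (K.indicator fun _ => (2 * B) ^ 2) ?_ ?_ ?_ ?_
      · intro i
        exact (((hM i).meas hg2).sub hg2.1).norm.pow 2
      · exact (integrable_indicator_iff hKc.measurableSet).2
          (integrableOn_const hKc.measure_lt_top.ne)
      · intro i
        refine Filter.Eventually.of_forall fun z => ?_
        rw [Real.norm_eq_abs, abs_of_nonneg (sq_nonneg _)]
        by_cases hz : z ∈ K
        · rw [Set.indicator_of_mem hz]
          refine pow_le_pow_left₀ (norm_nonneg _) ?_ 2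
          refine (hM i).close hg2 z (g z) (2 * B) fun x _ => ?_
          refine (norm_sub_le _ _).trans ?_
          linarith [hB x, hB z]
        · rw [Set.indicator_of_notMem hz]
          have hgz : g z = 0 := by
            by_contra hne
            exact hz (Metric.self_subset_cthickening _ (subset_tsupport g hne))
          have h1 : ‖cv (φ i) g z - g z‖ ≤ 0 := by
            refine (hM i).close hg2 z (g z) 0 fun x hx => ?_
            have hgx : g x = 0 := by
              by_contra hne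
              apply hz
              refine Metric.mem_cthickening_of_dist_le z x 1 _ (subset_tsupport g hne) ?_
              rw [dist_eq_norm]
              exact hx.trans (hr1 i)
            rw [hgx, hgz]
            simp
          have h2 : ‖cv (φ i) g z - g z‖ = 0 := le_antisymm h1 (norm_nonneg _)
          rw [h2]
          norm_num
      · refine Filter.Eventually.of_forall fun z => ?_
        have h1 : Tendsto (fun i => ‖cv (φ i) g z - g z‖) atTop (𝓝 0) := by
          rw [Metric.tendsto_atTop]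
          intro ε hε
          obtain ⟨δ, hδ, hδ2⟩ := Metric.continuous_iff.1 hgc z (ε / 2) (by linarith)
          obtain ⟨N, hN⟩ := exists_nat_gt (1 / δ)
          refine ⟨N, fun i hi => ?_⟩
          rw [dist_zero_right, norm_norm]
          have h2 : (1 : ℝ) / ((i : ℝ) + 1) < δ := by
            have hi' : (N : ℝ) ≤ i := by exact_mod_cast hi
            rw [div_lt_iff₀ (by positivity)]
            rw [div_lt_iff₀ hδ] at hN
            nlinarith
          have h3 : ‖cv (φ i) g z - g z‖ ≤ ε / 2 := by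
            refine (hM i).close hg2 z (g z) (ε / 2) fun x hx => ?_
            have h4 : dist x z < δ := by
              rw [dist_comm, dist_eq_norm]
              exact lt_of_le_of_lt hx h2
            have := hδ2 x h4
            rw [dist_eq_norm] at this
            exact this.le
          linarith
        have := h1.pow 2
        simpa using this
    simpa using h0
  rw [Metric.tendsto_atTop]
  intro ε hε
  -- approximation
  have hδ : (0 : ℝ) < Real.sqrt (ε / 12) := Real.sqrt_pos.2 (by linarith)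
  obtain ⟨g, hgs, hgf, hgc, hg2⟩ := hf.exists_hasCompactSupport_eLpNorm_sub_le (by norm_num)
    (ε := ENNReal.ofReal (Real.sqrt (ε / 12))) (by
      rw [Ne, ENNReal.ofReal_eq_zero, not_le]; exact hδ)
  have hfg : MemLp (f - g) 2 volume := hf.sub hg2
  have hfgi : ∫ x, ‖(f - g) x‖ ^ 2 ≤ ε / 12 := by
    have h1 : eLpNorm (f - g) 2 volume
        = ENNReal.ofReal ((∫ x, ‖(f - g) x‖ ^ (2 : ℝ)) ^ ((2 : ℝ)⁻¹)) := by
      have := hfg.eLpNorm_eq_integral_rpow_norm (by norm_num) (by norm_num)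
      simpa using this
    rw [h1] at hgf
    have h2 := (ENNReal.ofReal_le_ofReal_iff hδ.le).1 hgf
    have h3 : ∀ x, ‖(f - g) x‖ ^ (2 : ℝ) = ‖(f - g) x‖ ^ 2 := fun x => Real.rpow_two _
    simp only [h3] at h2
    have h4 : 0 ≤ ∫ x, ‖(f - g) x‖ ^ 2 := integral_nonneg fun x => sq_nonneg _
    have h5 : (∫ x, ‖(f - g) x‖ ^ 2) ^ ((2 : ℝ)⁻¹) = Real.sqrt (∫ x, ‖(f - g) x‖ ^ 2) := by
      rw [Real.sqrt_eq_rpow]
      norm_num
    rw [h5] at h2
    exact (Real.sqrt_le_sqrt_iff (by linarith)).1 h2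
  obtain ⟨N, hN⟩ := Metric.tendsto_atTop.1 (hcont g hgc hgs hg2) (ε / 12) (by linarith)
  refine ⟨N, fun i hi => ?_⟩
  have hNi := hN i hi
  rw [Real.dist_eq, sub_zero] at hNi ⊢
  have hA := ((hM i).mem hfg)
  have hB : Integrable (fun z => ‖cv (φ i) (f - g) z‖ ^ 2) volume :=
    (memLp_two_iff_integrable_sq_norm hA.1.1).1 hA.1
  have hC : Integrable (fun z => ‖cv (φ i) g z - g z‖ ^ 2) volume := by
    have hc : MemLp (fun z => cv (φ i) g z - g z) 2 volume := ((hM i).mem hg2).1.sub hg2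
    exact (memLp_two_iff_integrable_sq_norm hc.1).1 hc
  have hD : Integrable (fun z => ‖(f - g) z‖ ^ 2) volume :=
    (memLp_two_iff_integrable_sq_norm hfg.1).1 hfg
  have hE : Integrable (fun z => ‖cv (φ i) f z - f z‖ ^ 2) volume := by
    have hc : MemLp (fun z => cv (φ i) f z - f z) 2 volume := ((hM i).mem hf).1.sub hf
    exact (memLp_two_iff_integrable_sq_norm hc.1).1 hc
  have hpt : ∀ z, ‖cv (φ i) f z - f z‖ ^ 2
      ≤ 3 * (‖cv (φ i) (f - g) z‖ ^ 2 + ‖cv (φ i) g z - g z‖ ^ 2 + ‖(f - g) z‖ ^ 2) := by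
    intro z
    have e1 : cv (φ i) (f - g) z = cv (φ i) f z - cv (φ i) g z := by
      unfold cv
      rw [← integral_sub ((hM i).ic hf z) ((hM i).ic hg2 z)]
      congr 1
      funext x
      rw [Pi.sub_apply]
      ring
    have e2 : cv (φ i) f z - f z
        = cv (φ i) (f - g) z + (cv (φ i) g z - g z) - (f - g) z := by
      rw [e1, Pi.sub_apply]
      ring
    have h1 : ‖cv (φ i) f z - f z‖
        ≤ ‖cv (φ i) (f - g) z‖ + ‖cv (φ i) g z - g z‖ + ‖(f - g) z‖ := by
      rw [e2]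
      exact (norm_sub_le _ _).trans (add_le_add (norm_add_le _ _) le_rfl)
    have h2 := pow_le_pow_left₀ (norm_nonneg _) h1 2
    nlinarith [sq_nonneg (‖cv (φ i) (f - g) z‖ - ‖cv (φ i) g z - g z‖),
      sq_nonneg (‖cv (φ i) (f - g) z‖ - ‖(f - g) z‖),
      sq_nonneg (‖cv (φ i) g z - g z‖ - ‖(f - g) z‖)]
  have hI : ∫ z, ‖cv (φ i) f z - f z‖ ^ 2
      ≤ 3 * ((∫ z, ‖cv (φ i) (f - g) z‖ ^ 2) + (∫ z, ‖cv (φ i) g z - g z‖ ^ 2)
        + ∫ z, ‖(f - g) z‖ ^ 2) := by
    have a1 := integral_add (f := fun z => ‖cv (φ i) (f - g) z‖ ^ 2)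
      (g := fun z => ‖cv (φ i) g z - g z‖ ^ 2) hB hC
    have a2 := integral_add (f := fun z => ‖cv (φ i) (f - g) z‖ ^ 2 + ‖cv (φ i) g z - g z‖ ^ 2)
      (g := fun z => ‖(f - g) z‖ ^ 2) (hB.add hC) hD
    rw [← a1, ← a2, ← integral_const_mul]
    exact integral_mono hE (((hB.add hC).add hD).const_mul 3) hpt
  have h0 : 0 ≤ ∫ z, ‖cv (φ i) f z - f z‖ ^ 2 := integral_nonneg fun z => sq_nonneg _
  have h1 : 0 ≤ ∫ z, ‖cv (φ i) g z - g z‖ ^ 2 := integral_nonneg fun z => sq_nonneg _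
  rw [abs_of_nonneg h0]
  rw [abs_of_nonneg h1] at hNi
  have h2 := hA.2
  linarith

end Pool.Agent.Helper72.KP
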