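import Pool.Agent.Helper93.KP.St
import Pool.Agent.Helper30.TW.M_QD

/-!
# Project KP (MP_77e955_nt), module BAD: the exceptional `n`
-/

set_option autoImplicit false

noncomputable section

namespace Pool.Agent.Helper72.KP

open Finset Filter Topology
open Pool.Agent.Helper93.KP
open Pool.Agent.Helper15.AB (ee Kl StDB StMT)

private theorem lt_of_NN (a k n : ℕ) (ha : 2 ≤ a) (hka : k ≤ a) (hn : n ∈ NN a) : k + 2 < n := by
  rw [NN, mem_Ioc] at hn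
  have h1 : a * 2 ≤ a ^ 2 := by
    rw [pow_two]
    exact Nat.mul_le_mul_left a ha
  omega

private theorem cls (a k q : ℕ) (ha : 2 ≤ a) (hk : 1 ≤ k) (hka : k ≤ a) :
    ((NN a).filter (fun n => q ∣ vk n k)).card ≤ 3 * a ^ 2 / q + 1 := by
  classical
  rcases ((NN a).filter (fun n => q ∣ vk n k)).eq_empty_or_nonempty with h | ⟨n₀, hn₀⟩
  · rw [h]
    simp
  · rw [mem_filter] at hn₀
    have h0 := lt_of_NN a k n₀ ha hka hn₀.1
    obtain ⟨t, ht⟩ := (dvd_vk n₀ k q hk (by omega)).1 hn₀.2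
    have hcop : IsCoprime (q : ℤ) (k : ℤ) := by
      refine ⟨-t, n₀ - k, ?_⟩
      unfold gk at ht
      linear_combination ht
    refine le_trans ?_ (Pool.Agent.Helper30.TW.class_card (3 * a ^ 2) q (n₀ - a ^ 2))
    refine card_le_card_of_injOn (fun n => n - a ^ 2) ?_ ?_
    · intro n hn
      rw [mem_coe, mem_filter] at hn
      have hn' := hn.1
      have hn0' := hn₀.1
      rw [NN, mem_Ioc] at hn' hn0'
      rw [mem_coe, mem_filter, mem_Icc]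
      have c1 : 1 ≤ n - a ^ 2 := by omega
      have c2 : n - a ^ 2 ≤ 3 * a ^ 2 := by omega
      refine ⟨⟨c1, c2⟩, ?_⟩
      have h2 := lt_of_NN a k n ha hka hn.1
      obtain ⟨s, hs⟩ := (dvd_vk n k q hk (by omega)).1 hn.2
      show (q : ℤ) ∣ ((n₀ - a ^ 2 : ℕ) : ℤ) - ((n - a ^ 2 : ℕ) : ℤ)
      rw [Nat.cast_sub hn0'.1.le, Nat.cast_sub hn'.1.le]
      refine hcop.dvd_of_dvd_mul_left ⟨t - s, ?_⟩
      unfold gk at ht hs
      push_cast
      linear_combination ht - hs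
    · intro n hn m hm h
      rw [mem_coe, mem_filter, NN, mem_Ioc] at hn hm
      have h3 : n - a ^ 2 = m - a ^ 2 := h
      omega

private theorem clsR (a k q : ℕ) (ha : 2 ≤ a) (hk : 1 ≤ k) (hka : k ≤ a) :
    (((NN a).filter (fun n => q ∣ vk n k)).card : ℝ) ≤ 3 * (a : ℝ) ^ 2 / q + 1 := by
  have h1 : (((NN a).filter (fun n => q ∣ vk n k)).card : ℝ) ≤ ((3 * a ^ 2 / q : ℕ) : ℝ) + 1 := by
    exact_mod_cast cls a k q ha hk hka
  have h2 : ((3 * a ^ 2 / q : ℕ) : ℝ) ≤ 3 * (a : ℝ) ^ 2 / q := by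
    refine Nat.cast_div_le.trans ?_
    push_cast
    exact le_rfl
  linarith

open Classical in
/-- large primes -/
private theorem big (a k : ℕ) (ha : 2 ≤ a) (hk : 1 ≤ k) (hka : k ≤ a) :
    ((NN a).filter (fun n => ∃ p : ℕ, a < p ∧ p ^ 2 ∣ vk n k)).card ≤ (4 * k) * (2 * a * k) := by
  have h1 : ((NN a).filter (fun n => ∃ p : ℕ, a < p ∧ p ^ 2 ∣ vk n k)) ⊆
      ((range (4 * k)) ×ˢ (range (2 * a * k))).image (fun w : ℕ × ℕ => (w.2 ^ 2 * w.1 + 1) / k + k) := by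
    intro n hn
    rw [mem_filter] at hn
    obtain ⟨hnN, p, hap, t, ht⟩ := hn
    have h0 := lt_of_NN a k n ha hka hnN
    rw [NN, mem_Ioc] at hnN
    have hv : vk n k + 1 = k * (n - k) := by
      unfold vk
      have : 1 ≤ k * (n - k) := Nat.mul_pos hk (by omega)
      omega
    have hvp : 1 ≤ vk n k := by
      have h3 : 1 * 2 ≤ k * (n - k) := Nat.mul_le_mul hk (by omega)
      omega
    have hvu : vk n k < 4 * k * a ^ 2 := by
      have h3 : k * (n - k) ≤ k * (4 * a ^ 2) := Nat.mul_le_mul_left k (by omega)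
      have h4 : k * (4 * a ^ 2) = 4 * k * a ^ 2 := by ring
      omega
    have ht0 : 1 ≤ t := by
      rcases Nat.eq_zero_or_pos t with h | h
      · rw [h, mul_zero] at ht
        omega
      · exact h
    rw [mem_image]
    refine ⟨(t, p), ?_, ?_⟩
    · rw [mem_product, mem_range, mem_range]
      constructor
      · show t < 4 * k
        by_contra hcon
        rw [not_lt] at hcon
        have h5 : a ^ 2 * (4 * k) ≤ p ^ 2 * t :=
          Nat.mul_le_mul (Nat.pow_le_pow_left hap.le 2) hcon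
        have h6 : a ^ 2 * (4 * k) = 4 * k * a ^ 2 := by ring
        omega
      · show p < 2 * a * k
        by_contra hcon
        rw [not_lt] at hcon
        have h5 : (2 * a * k) ^ 2 * 1 ≤ p ^ 2 * t :=
          Nat.mul_le_mul (Nat.pow_le_pow_left hcon 2) ht0
        have h6 : (2 * a * k) ^ 2 * 1 = k * (4 * k * a ^ 2) := by ring
        have h7 : 1 * (4 * k * a ^ 2) ≤ k * (4 * k * a ^ 2) := Nat.mul_le_mul_right _ hk
        omega
    · show (p ^ 2 * t + 1) / k + k = n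
      rw [← ht, hv, Nat.mul_div_cancel_left _ (by omega)]
      omega
  refine (card_le_card h1).trans (card_image_le.trans ?_)
  rw [card_product, card_range, card_range]

private theorem kk_pow (a k : ℕ) (ha : 2 ≤ a) (hk : (k : ℝ) ≤ (a : ℝ) ^ (1 / 10 : ℝ)) : k ≤ a := by
  have ha1 : (1 : ℝ) ≤ a := by exact_mod_cast (by omega : 1 ≤ a)
  have h1 : (k : ℝ) ≤ a := by
    refine hk.trans ?_
    calc (a : ℝ) ^ (1 / 10 : ℝ) ≤ (a : ℝ) ^ (1 : ℝ) :=
          Real.rpow_le_rpow_of_exponent_le ha1 (by norm_num)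
      _ = a := Real.rpow_one _
  exact_mod_cast h1

private theorem sqb (θ : ℝ) (hθ : 0 < θ) (hθ1 : θ ≤ 1 / 10) (a k : ℕ) (ha : 2 ≤ a) (hk : 1 ≤ k)
    (hka : (k : ℝ) ≤ (a : ℝ) ^ (1 / 10 : ℝ)) :
    ((SQ a ((a : ℝ) ^ θ) k).card : ℝ) ≤ 15 * (a : ℝ) ^ (2 - θ) := by
  classical
  have ha1 : (1 : ℝ) ≤ a := by exact_mod_cast (by omega : 1 ≤ a)
  have ha0 : (0 : ℝ) < a := by linarith
  have hka' := kk_pow a k ha hka
  set M₀ : ℕ := ⌈(a : ℝ) ^ θ⌉₊ with hM0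
  have haθ : (1 : ℝ) ≤ (a : ℝ) ^ θ := Real.one_le_rpow ha1 hθ.le
  have hM0r : (a : ℝ) ^ θ ≤ M₀ := Nat.le_ceil _
  have hM01 : 1 ≤ M₀ := by
    have : (0 : ℝ) < M₀ := by linarith
    exact_mod_cast this
  have hsub : SQ a ((a : ℝ) ^ θ) k ⊆
      ((Icc M₀ a).biUnion (fun m => (NN a).filter (fun n => m ^ 2 ∣ vk n k))) ∪
      ((NN a).filter (fun n => ∃ p : ℕ, a < p ∧ p ^ 2 ∣ vk n k)) := by
    intro n hn
    rw [SQ, mem_filter] at hn
    obtain ⟨hnN, p, hp, hpz, hpd⟩ := hn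
    rw [mem_union]
    rcases le_or_gt p a with h | h
    · left
      rw [mem_biUnion]
      refine ⟨p, ?_, ?_⟩
      · rw [mem_Icc]
        exact ⟨Nat.ceil_le.2 hpz, h⟩
      · rw [mem_filter]
        exact ⟨hnN, hpd⟩
    · right
      rw [mem_filter]
      exact ⟨hnN, p, h, hpd⟩
  have h1 : ((SQ a ((a : ℝ) ^ θ) k).card : ℝ) ≤
      ∑ m ∈ Icc M₀ a, (((NN a).filter (fun n => m ^ 2 ∣ vk n k)).card : ℝ) +
      ((4 * k) * (2 * a * k) : ℕ) := by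
    have h2 := (card_le_card hsub).trans (card_union_le _ _)
    have h3 : ((Icc M₀ a).biUnion (fun m => (NN a).filter (fun n => m ^ 2 ∣ vk n k))).card ≤
        ∑ m ∈ Icc M₀ a, ((NN a).filter (fun n => m ^ 2 ∣ vk n k)).card := card_biUnion_le
    have h5 := h2.trans (Nat.add_le_add h3 (big a k ha hk hka'))
    exact_mod_cast h5
  have h2 : ∑ m ∈ Icc M₀ a, (((NN a).filter (fun n => m ^ 2 ∣ vk n k)).card : ℝ) ≤
      6 * (a : ℝ) ^ (2 - θ) + a := by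
    have h3 : ∀ m ∈ Icc M₀ a, (((NN a).filter (fun n => m ^ 2 ∣ vk n k)).card : ℝ) ≤
        3 * (a : ℝ) ^ 2 * ((m : ℝ) ^ 2)⁻¹ + 1 := by
      intro m _
      have := clsR a k (m ^ 2) ha hk hka'
      rw [div_eq_mul_inv] at this
      push_cast at this
      exact this
    have h4 : ∑ m ∈ Icc M₀ a, ((m : ℝ) ^ 2)⁻¹ ≤ 2 / M₀ := by
      have h5 := sum_Ioo_inv_sq_le (α := ℝ) (M₀ - 1) (a + 1)
      have h6 : Ioo (M₀ - 1) (a + 1) = Icc M₀ a := by
        ext m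
        rw [mem_Ioo, mem_Icc]
        omega
      rw [h6, Nat.cast_sub hM01] at h5
      refine h5.trans (le_of_eq ?_)
      push_cast
      ring
    have h7 : ((Icc M₀ a).card : ℝ) ≤ a := by
      rw [Nat.card_Icc]
      exact_mod_cast (by omega : a + 1 - M₀ ≤ a)
    have h8 : 3 * (a : ℝ) ^ 2 * (2 / M₀) ≤ 6 * (a : ℝ) ^ (2 - θ) := by
      rw [Real.rpow_sub ha0, Real.rpow_two]
      have : 3 * (a : ℝ) ^ 2 * (2 / M₀) = 6 * ((a : ℝ) ^ 2 / M₀) := by ring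
      rw [this]
      gcongr
    calc ∑ m ∈ Icc M₀ a, (((NN a).filter (fun n => m ^ 2 ∣ vk n k)).card : ℝ)
        ≤ ∑ m ∈ Icc M₀ a, (3 * (a : ℝ) ^ 2 * ((m : ℝ) ^ 2)⁻¹ + 1) := sum_le_sum h3
      _ = 3 * (a : ℝ) ^ 2 * ∑ m ∈ Icc M₀ a, ((m : ℝ) ^ 2)⁻¹ + ((Icc M₀ a).card : ℝ) := by
          rw [sum_add_distrib, ← mul_sum, sum_const, nsmul_eq_mul, mul_one]
      _ ≤ 3 * (a : ℝ) ^ 2 * (2 / M₀) + a :=
          add_le_add (mul_le_mul_of_nonneg_left h4 (by positivity)) h7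
      _ ≤ _ := by linarith
  have h3 : (((4 * k) * (2 * a * k) : ℕ) : ℝ) ≤ 8 * (a : ℝ) ^ (6 / 5 : ℝ) := by
    push_cast
    have h4 : (k : ℝ) * k ≤ (a : ℝ) ^ (1 / 10 : ℝ) * (a : ℝ) ^ (1 / 10 : ℝ) :=
      mul_le_mul hka hka (Nat.cast_nonneg _) (by positivity)
    rw [← Real.rpow_add ha0] at h4
    have h5 : (a : ℝ) ^ (6 / 5 : ℝ) = a * (a : ℝ) ^ (1 / 10 + 1 / 10 : ℝ) := by
      rw [← Real.rpow_one_add' ha0.le (by norm_num)]
      norm_num
    rw [h5]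
    calc (4 * (k : ℝ)) * (2 * a * k) = 8 * (a * (k * k)) := by ring
      _ ≤ _ := by gcongr
  have e1 : (a : ℝ) ^ (6 / 5 : ℝ) ≤ (a : ℝ) ^ (2 - θ) :=
    Real.rpow_le_rpow_of_exponent_le ha1 (by linarith)
  have e2 : (a : ℝ) ≤ (a : ℝ) ^ (2 - θ) := by
    calc (a : ℝ) = (a : ℝ) ^ (1 : ℝ) := (Real.rpow_one _).symm
      _ ≤ _ := Real.rpow_le_rpow_of_exponent_le ha1 (by linarith)
  linarith

private theorem dvb (ε C : ℝ) (hε : 0 < ε) (hC1 : 1 ≤ C)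
    (hC : ∀ n : ℕ, 1 ≤ n → (n.divisors.card : ℝ) ≤ C * (n : ℝ) ^ ε) (θ : ℝ) (hθ1 : θ ≤ 1 / 10)
    (a k D : ℕ) (ha : 2 ≤ a) (hk : 1 ≤ k) (hka : k ≤ a) (hD : 1 ≤ D) (hDa : (D : ℝ) ≤ a) (S : Finset ℕ)
    (hS : ∀ n ∈ S, n ∈ NN a ∧ ∃ p : ℕ, (a : ℝ) ^ θ ≤ p ∧ p ∣ D ∧ p ∣ vk n k) :
    (S.card : ℝ) ≤ 4 * C * (a : ℝ) ^ (2 - θ + ε) := by
  classical
  have ha1 : (1 : ℝ) ≤ a := by exact_mod_cast (by omega : 1 ≤ a)
  have ha0 : (0 : ℝ) < a := by linarith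
  have hzp : 0 < (a : ℝ) ^ θ := Real.rpow_pos_of_pos ha0 _
  have hsub : S ⊆ (D.divisors.filter (fun p : ℕ => (a : ℝ) ^ θ ≤ p)).biUnion
      (fun p => (NN a).filter (fun n => p ∣ vk n k)) := by
    intro n hn
    obtain ⟨h1, p, h2, h3, h4⟩ := hS n hn
    rw [mem_biUnion]
    refine ⟨p, ?_, ?_⟩
    · rw [mem_filter, Nat.mem_divisors]
      exact ⟨⟨h3, by omega⟩, h2⟩
    · rw [mem_filter]
      exact ⟨h1, h4⟩
  have h1 : (S.card : ℝ) ≤ ∑ p ∈ D.divisors.filter (fun p : ℕ => (a : ℝ) ^ θ ≤ p),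
      (((NN a).filter (fun n => p ∣ vk n k)).card : ℝ) := by
    exact_mod_cast (card_le_card hsub).trans card_biUnion_le
  have e1 : (1 : ℝ) ≤ (a : ℝ) ^ (2 - θ) := Real.one_le_rpow ha1 (by linarith)
  have h2 : ∀ p ∈ D.divisors.filter (fun p : ℕ => (a : ℝ) ^ θ ≤ p),
      (((NN a).filter (fun n => p ∣ vk n k)).card : ℝ) ≤ 4 * (a : ℝ) ^ (2 - θ) := by
    intro p hp
    rw [mem_filter] at hp
    have h3 := clsR a k p ha hk hka
    have h4 : 3 * (a : ℝ) ^ 2 / p ≤ 3 * (a : ℝ) ^ (2 - θ) := by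
      rw [Real.rpow_sub ha0, Real.rpow_two, mul_div_assoc]
      have := hp.2
      gcongr
    linarith
  have h3 : ((D.divisors.filter (fun p : ℕ => (a : ℝ) ^ θ ≤ p)).card : ℝ) ≤ C * (a : ℝ) ^ ε := by
    have h4 : ((D.divisors.filter (fun p : ℕ => (a : ℝ) ^ θ ≤ p)).card : ℝ) ≤ (D.divisors.card : ℝ) := by
      exact_mod_cast card_filter_le _ _
    have h5 := hC D hD
    have h6 : (D : ℝ) ^ ε ≤ (a : ℝ) ^ ε := Real.rpow_le_rpow (Nat.cast_nonneg _) hDa hε.le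
    have h7 : C * (D : ℝ) ^ ε ≤ C * (a : ℝ) ^ ε := mul_le_mul_of_nonneg_left h6 (by linarith)
    linarith
  calc (S.card : ℝ) ≤ ∑ p ∈ D.divisors.filter (fun p : ℕ => (a : ℝ) ^ θ ≤ p),
        4 * (a : ℝ) ^ (2 - θ) := h1.trans (sum_le_sum h2)
    _ = ((D.divisors.filter (fun p : ℕ => (a : ℝ) ^ θ ≤ p)).card : ℝ) * (4 * (a : ℝ) ^ (2 - θ)) := by
        rw [sum_const, nsmul_eq_mul]
    _ ≤ (C * (a : ℝ) ^ ε) * (4 * (a : ℝ) ^ (2 - θ)) := by gcongr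
    _ = 4 * C * ((a : ℝ) ^ (2 - θ) * (a : ℝ) ^ ε) := by ring
    _ = _ := by rw [← Real.rpow_add ha0]

theorem hBAD (hDB : StDB) : StBAD := by
  intro θ ε hθ hθ1 hε
  classical
  obtain ⟨C, hC1, hC⟩ := hDB ε hε
  refine ⟨30 + 12 * C, by linarith, ?_⟩
  intro a k k' ha hk hk' hne hka hka'
  have ha1 : (1 : ℝ) ≤ a := by exact_mod_cast (by omega : 1 ≤ a)
  have ha0 : (0 : ℝ) < a := by linarith
  have e0 : (a : ℝ) ^ (2 - θ) ≤ (a : ℝ) ^ (2 - θ + ε) :=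
    Real.rpow_le_rpow_of_exponent_le ha1 (by linarith)
  have ep : 0 < (a : ℝ) ^ (2 - θ + ε) := Real.rpow_pos_of_pos ha0 _
  have hs := sqb θ hθ hθ1 a k ha hk hka
  have hs' := sqb θ hθ hθ1 a k' ha hk' hka'
  have hCp : 0 ≤ C * (a : ℝ) ^ (2 - θ + ε) := by positivity
  constructor
  · have e3 : (30 + 12 * C) * (a : ℝ) ^ (2 - θ + ε) =
        30 * (a : ℝ) ^ (2 - θ + ε) + 12 * (C * (a : ℝ) ^ (2 - θ + ε)) := by ring
    rw [e3]
    linarith
  · have hk1 := kk_pow a k ha hka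
    have hk1' := kk_pow a k' ha hka'
    set D : ℕ := (((k : ℤ) - k') * ((k : ℤ) * k' - 1)).natAbs with hD
    have hD0 : ((k : ℤ) - k') * ((k : ℤ) * k' - 1) ≠ 0 := by
      apply mul_ne_zero
      · intro h
        exact hne (by exact_mod_cast sub_eq_zero.1 h)
      · intro h
        have h1 : k * k' = 1 := by exact_mod_cast sub_eq_zero.1 h
        have h2 := Nat.eq_one_of_mul_eq_one_right h1
        have h3 := Nat.eq_one_of_mul_eq_one_left h1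
        omega
    have hD1 : 1 ≤ D := Nat.pos_of_ne_zero (Int.natAbs_ne_zero.2 hD0)
    have hDa : (D : ℝ) ≤ a := by
      have h1 : (D : ℝ) = |((k : ℝ) - k') * ((k : ℝ) * k' - 1)| := by
        rw [hD, Nat.cast_natAbs]
        push_cast
        rfl
      have hkp : (0 : ℝ) ≤ k := Nat.cast_nonneg _
      have hkp' : (0 : ℝ) ≤ k' := Nat.cast_nonneg _
      have hk1r : (1 : ℝ) ≤ k := by exact_mod_cast hk
      have hk1r' : (1 : ℝ) ≤ k' := by exact_mod_cast hk'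
      have hA : 0 ≤ (a : ℝ) ^ (1 / 10 : ℝ) := by positivity
      have h2 : |(k : ℝ) - k'| ≤ (a : ℝ) ^ (1 / 10 : ℝ) := by
        rw [abs_le]
        constructor <;> linarith
      have h3 : (k : ℝ) * k' ≤ (a : ℝ) ^ (1 / 10 : ℝ) * (a : ℝ) ^ (1 / 10 : ℝ) :=
        mul_le_mul hka hka' hkp' hA
      have h4 : (1 : ℝ) ≤ (k : ℝ) * k' := by
        have := mul_le_mul hk1r hk1r' zero_le_one hkp
        linarith
      have h5 : |(k : ℝ) * k' - 1| ≤ (a : ℝ) ^ (1 / 10 : ℝ) * (a : ℝ) ^ (1 / 10 : ℝ) := by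
        rw [abs_le]
        constructor <;> linarith
      rw [h1, abs_mul]
      calc |(k : ℝ) - k'| * |(k : ℝ) * k' - 1| ≤
            (a : ℝ) ^ (1 / 10 : ℝ) * ((a : ℝ) ^ (1 / 10 : ℝ) * (a : ℝ) ^ (1 / 10 : ℝ)) :=
            mul_le_mul h2 h5 (abs_nonneg _) hA
        _ = (a : ℝ) ^ (3 / 10 : ℝ) := by
            rw [← Real.rpow_add ha0, ← Real.rpow_add ha0]
            norm_num
        _ ≤ (a : ℝ) ^ (1 : ℝ) := Real.rpow_le_rpow_of_exponent_le ha1 (by norm_num)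
        _ = a := Real.rpow_one _
    set S1 := (NN a).filter (fun n => ∃ p : ℕ, (a : ℝ) ^ θ ≤ p ∧ p ∣ D ∧ p ∣ vk n k) with hS1
    set S2 := (NN a).filter (fun n => ∃ p : ℕ, (a : ℝ) ^ θ ≤ p ∧ p ∣ k ∧ p ∣ vk n k') with hS2
    set S3 := (NN a).filter (fun n => ∃ p : ℕ, (a : ℝ) ^ θ ≤ p ∧ p ∣ k' ∧ p ∣ vk n k) with hS3
    have b1 : (S1.card : ℝ) ≤ 4 * C * (a : ℝ) ^ (2 - θ + ε) := by
      refine dvb ε C hε hC1 hC θ hθ1 a k D ha hk hk1 hD1 hDa S1 ?_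
      intro n hn
      rw [hS1, mem_filter] at hn
      exact hn
    have b2 : (S2.card : ℝ) ≤ 4 * C * (a : ℝ) ^ (2 - θ + ε) := by
      refine dvb ε C hε hC1 hC θ hθ1 a k' k ha hk' hk1' hk (by exact_mod_cast hk1) S2 ?_
      intro n hn
      rw [hS2, mem_filter] at hn
      exact hn
    have b3 : (S3.card : ℝ) ≤ 4 * C * (a : ℝ) ^ (2 - θ + ε) := by
      refine dvb ε C hε hC1 hC θ hθ1 a k k' ha hk hk1 hk' (by exact_mod_cast hk1') S3 ?_
      intro n hn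
      rw [hS3, mem_filter] at hn
      exact hn
    have hsub : BD a ((a : ℝ) ^ θ) k k' ⊆
        (((SQ a ((a : ℝ) ^ θ) k ∪ SQ a ((a : ℝ) ^ θ) k') ∪ S1) ∪ S2) ∪ S3 := by
      intro n hn
      rw [BD, mem_filter] at hn
      obtain ⟨hnN, p, hp, hpz, hor⟩ := hn
      rw [mem_union, mem_union, mem_union, mem_union]
      rcases hor with h | h | h | h | h
      · left; left; left; left
        rw [SQ, mem_filter]
        exact ⟨hnN, p, hp, hpz, h⟩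
      · left; left; left; right
        rw [SQ, mem_filter]
        exact ⟨hnN, p, hp, hpz, h⟩
      · left; left; right
        rw [hS1, mem_filter]
        refine ⟨hnN, p, hpz, ?_, h.1⟩
        have g1 := (dvd_vk n k p hk (by have := lt_of_NN a k n ha hk1 hnN; omega)).1 h.1
        have g2 := (dvd_vk n k' p hk' (by have := lt_of_NN a k' n ha hk1' hnN; omega)).1 h.2
        have g3 : (p : ℤ) ∣ ((k : ℤ) - k') * ((k : ℤ) * k' - 1) := by
          have g4 := dvd_sub (Dvd.dvd.mul_left g2 (k : ℤ)) (Dvd.dvd.mul_left g1 (k' : ℤ))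
          have g5 : (k : ℤ) * gk n k' - k' * gk n k = ((k : ℤ) - k') * ((k : ℤ) * k' - 1) := by
            unfold gk
            ring
          rwa [g5] at g4
        exact Int.natCast_dvd.1 g3
      · left; right
        rw [hS2, mem_filter]
        exact ⟨hnN, p, hpz, h.1, h.2⟩
      · right
        rw [hS3, mem_filter]
        exact ⟨hnN, p, hpz, h.1, h.2⟩
    have hcard : ((BD a ((a : ℝ) ^ θ) k k').card : ℝ) ≤ (SQ a ((a : ℝ) ^ θ) k).card +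
        (SQ a ((a : ℝ) ^ θ) k').card + S1.card + S2.card + S3.card := by
      have u1 := card_le_card hsub
      have u2 := card_union_le (((SQ a ((a : ℝ) ^ θ) k ∪ SQ a ((a : ℝ) ^ θ) k') ∪ S1) ∪ S2) S3
      have u3 := card_union_le ((SQ a ((a : ℝ) ^ θ) k ∪ SQ a ((a : ℝ) ^ θ) k') ∪ S1) S2
      have u4 := card_union_le (SQ a ((a : ℝ) ^ θ) k ∪ SQ a ((a : ℝ) ^ θ) k') S1
      have u5 := card_union_le (SQ a ((a : ℝ) ^ θ) k) (SQ a ((a : ℝ) ^ θ) k')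
      have u6 : (BD a ((a : ℝ) ^ θ) k k').card ≤ (SQ a ((a : ℝ) ^ θ) k).card +
        (SQ a ((a : ℝ) ^ θ) k').card + S1.card + S2.card + S3.card := by omega
      exact_mod_cast u6
    have e3 : (30 + 12 * C) * (a : ℝ) ^ (2 - θ + ε) =
        30 * (a : ℝ) ^ (2 - θ + ε) + 3 * (4 * C * (a : ℝ) ^ (2 - θ + ε)) := by ring
    rw [e3]
    linarith

end Pool.Agent.Helper72.KP
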